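import Pool.Agent.helper92.VC.Spec

/-! # Row SPN -/

set_option autoImplicit false

universe u

namespace Pool.Agent.helper92.VC

theorem SPN_mono {ι : Type} [DecidableEq ι] {K : Type u} [Field K] (w : ℕ) (l : List ι) :
    ∀ S S' : Set ((ι → ℕ) → K), S' ⊆ S → ROs K w l S → ROs K w l S' := by
  induction l with
  | nil =>
    intro S S' hSS h
    obtain ⟨g, hg⟩ := h
    exact ⟨g, hSS.trans hg⟩
  | cons x s ih =>
    intro S S' hSS h
    obtain ⟨⟨g, hg⟩, h2⟩ := h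
    refine ⟨⟨g, hSS.trans hg⟩, ih _ _ ?_ h2⟩
    rintro T' ⟨T, hT, j, rfl⟩
    exact ⟨T, hSS hT, j, rfl⟩

/-- `restr x j` as a linear map. -/
def SPN_lin {ι : Type} [DecidableEq ι] (K : Type u) [Field K] (x : ι) (j : ℕ) :
    ((ι → ℕ) → K) →ₗ[K] ((ι → ℕ) → K) where
  toFun T := restr x j T
  map_add' _ _ := rfl
  map_smul' _ _ := rfl

theorem SPN_dim {ι : Type} {K : Type u} [Field K] (w : ℕ) (S : Set ((ι → ℕ) → K))
    (h : DimLE K w S) : DimLE K w (Submodule.span K S : Set ((ι → ℕ) → K)) := by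
  obtain ⟨g, hg⟩ := h
  exact ⟨g, fun T hT => Submodule.span_le.2 hg hT⟩

theorem SPN : SPN_stmt.{u} := by
  intro ι _ K _ w l
  induction l with
  | nil =>
    intro S h
    exact SPN_dim w S h
  | cons x s ih =>
    intro S h
    obtain ⟨h1, h2⟩ := h
    refine ⟨SPN_dim w S h1, SPN_mono w s _ _ ?_ (ih _ h2)⟩
    rintro T' ⟨T, hT, j, rfl⟩
    have h3 : SPN_lin K x j T ∈ (Submodule.span K S).map (SPN_lin K x j) :=
      Submodule.mem_map_of_mem hT
    rw [Submodule.map_span] at h3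
    refine Submodule.span_mono ?_ h3
    rintro _ ⟨T1, hT1, rfl⟩
    exact ⟨T1, hT1, j, rfl⟩

end Pool.Agent.helper92.VC
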